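import Mathlib

namespace Pool.Agent.Results.MP_cb4251_co.SixVertices

open Relation

variable {V : Type}

/-- Every vertex can be reached from every vertex by a directed path. -/
def Strong (R : V → V → Prop) : Prop := ∀ u v, ReflTransGen R u v

/-- `D - X` is strongly connected for every set `X` of fewer than `k` arcs. -/
def ArcStrong (k : ℕ) (D : V → V → Prop) : Prop :=
  ∀ X : Finset (V × V), (∀ p ∈ X, D p.1 p.2) → X.card < k → Strong fun u v => D u v ∧ (u, v) ∉ X

/-- Split digraph: the vertex set is partitioned into an independent set `V₁` and a set `V₂`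
inducing a semicomplete digraph. -/
def IsSplit (D : V → V → Prop) : Prop :=
  ∃ V₁ V₂ : Set V, V₁ ∪ V₂ = Set.univ ∧ Disjoint V₁ V₂ ∧ (∀ u ∈ V₁, ∀ v ∈ V₁, ¬ D u v) ∧
    ∀ u ∈ V₂, ∀ v ∈ V₂, u ≠ v → D u v ∨ D v u

/-- The degree: out-degree plus in-degree. -/
noncomputable def degree (D : V → V → Prop) (v : V) : ℕ :=
  {w | D v w}.ncard + {w | D w v}.ncard

/-- The arc set is partitioned into two sets each spanning a strongly connected subdigraph. -/
def HasStrongArcDecomposition (D : V → V → Prop) : Prop :=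
  ∃ A₁ A₂ : Set (V × V), A₁ ∪ A₂ = {p | D p.1 p.2} ∧ Disjoint A₁ A₂ ∧
    Strong (fun u v => (u, v) ∈ A₁) ∧ Strong fun u v => (u, v) ∈ A₂

/-- The adjacency table of the example: `V₂ = {0, 1, 2, 3}` and `V₁ = {4, 5}`. -/
def E (u v : Fin 6) : Bool :=
  (![ ![false, true, true, false, true, false],
      ![false, false, true, true, true, true],
      ![false, false, false, true, true, false],
      ![true, false, false, false, false, true],
      ![true, false, true, false, false, false],
      ![false, true, true, true, false, false] ] : Fin 6 → Fin 6 → Bool) u v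

/-- The example. -/
def D (u v : Fin 6) : Prop := E u v = true

instance : ∀ u v, Decidable (D u v) := fun u v => by unfold D; infer_instance

lemma strong_of_cuts (R : Fin 6 → Fin 6 → Prop)
    (h : ∀ S : Finset (Fin 6), S.Nonempty → S ≠ Finset.univ → ∃ u ∈ S, ∃ v, v ∉ S ∧ R u v) :
    Strong R := by
  classical
  intro u v
  by_contra hv
  obtain ⟨x, hx, y, hy, hxy⟩ := h (Finset.univ.filter fun w => ReflTransGen R u w)
    ⟨u, by simp [ReflTransGen.refl]⟩ (by
      intro he
      have : v ∈ (Finset.univ.filter fun w => ReflTransGen R u w) := by rw [he]; simp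
      simp at this
      exact hv this)
  simp only [Finset.mem_filter, Finset.mem_univ, true_and] at hx hy
  exact hy (hx.tail hxy)

lemma cuts_of_strong {R : Fin 6 → Fin 6 → Prop} (h : Strong R) (S : Finset (Fin 6))
    (a b : Fin 6) (ha : a ∈ S) (hb : b ∉ S) : ∃ u ∈ S, ∃ v, v ∉ S ∧ R u v := by
  by_contra hcon
  push Not at hcon
  have : ∀ w, ReflTransGen R a w → w ∈ S := by
    intro w hw
    induction hw with
    | refl => exact ha
    | tail _ hr ih =>
      by_contra hc
      exact hcon _ ih _ hc hr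
  exact hb (this b (h a b))

lemma two_arcs : ∀ S : Finset (Fin 6), S.Nonempty → S ≠ Finset.univ →
    2 ≤ ((Finset.univ : Finset (Fin 6 × Fin 6)).filter
      fun p => p.1 ∈ S ∧ p.2 ∉ S ∧ D p.1 p.2).card := by
  decide +kernel

lemma arcStrong : ArcStrong 2 D := by
  intro X _ hX
  refine strong_of_cuts _ fun S hS hS' => ?_
  have h2 := two_arcs S hS hS'
  obtain ⟨p, hp, hpX⟩ := Finset.exists_mem_notMem_of_card_lt_card (lt_of_lt_of_le hX h2)
  rw [Finset.mem_filter] at hp
  exact ⟨p.1, hp.2.1, p.2, hp.2.2.1, hp.2.2.2, hpX⟩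

lemma split : IsSplit D := by
  refine ⟨{v | 4 ≤ v.val}, {v | v.val < 4}, ?_, ?_, ?_, ?_⟩
  · ext v
    simp only [Set.mem_union, Set.mem_ofPred_eq, Set.mem_univ, iff_true]
    omega
  · rw [Set.disjoint_left]
    intro v h1 h2
    simp only [Set.mem_ofPred_eq] at h1 h2
    omega
  · have : ∀ u v : Fin 6, 4 ≤ u.val → 4 ≤ v.val → ¬ D u v := by decide
    exact fun u hu v hv => this u v hu hv
  · have : ∀ u v : Fin 6, u.val < 4 → v.val < 4 → u ≠ v → D u v ∨ D v u := by decide
    exact fun u hu v hv => this u v hu hv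

lemma deg : ∀ v, 5 ≤ degree D v := by
  intro v
  unfold degree
  rw [Set.ncard_eq_toFinset_card', Set.ncard_eq_toFinset_card']
  revert v
  decide

lemma no_decomposition : ¬ HasStrongArcDecomposition D := by
  rintro ⟨A₁, A₂, hU, hdisj, hs1, hs2⟩
  have hmem : ∀ p : Fin 6 × Fin 6, p ∈ A₁ ∨ p ∈ A₂ ↔ D p.1 p.2 := by
    intro p
    have : p ∈ A₁ ∪ A₂ ↔ p ∈ {p : Fin 6 × Fin 6 | D p.1 p.2} := by rw [hU]
    simpa using this
  have hno : ∀ p, p ∈ A₁ → p ∈ A₂ → False := fun p h1 h2 => Set.disjoint_left.1 hdisj h1 h2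
  -- in a cut with exactly two arcs `p`, `q` the two arcs lie in different parts
  have key : ∀ (S : Finset (Fin 6)) (p q : Fin 6 × Fin 6) (a b : Fin 6), a ∈ S → b ∉ S →
      (∀ u v, u ∈ S → v ∉ S → D u v → (u, v) = p ∨ (u, v) = q) → D q.1 q.2 →
      (p ∈ A₁ ↔ q ∉ A₁) := by
    intro S p q a b ha hb hpq hq
    constructor
    · intro hp hq1
      obtain ⟨u, hu, v, hv, huv⟩ := cuts_of_strong hs2 S a b ha hb
      rcases hpq u v hu hv ((hmem (u, v)).1 (Or.inr huv)) with h | h
      · rw [h] at huv; exact hno p hp huv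
      · rw [h] at huv; exact hno q hq1 huv
    · intro hq1
      obtain ⟨u, hu, v, hv, huv⟩ := cuts_of_strong hs1 S a b ha hb
      rcases hpq u v hu hv ((hmem (u, v)).1 (Or.inl huv)) with h | h
      · rw [h] at huv; exact huv
      · rw [h] at huv; exact absurd huv hq1
  have k1 := key {2, 4} (4, 0) (2, 3) 2 0 (by decide) (by decide) (by decide) (by decide)
  have k2 := key {0, 2, 4} (0, 1) (2, 3) 2 1 (by decide) (by decide) (by decide) (by decide)
  have k3 := key {3} (3, 0) (3, 5) 3 0 (by decide) (by decide) (by decide) (by decide)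
  have k4 := key {1, 2, 3, 4, 5} (3, 0) (4, 0) 1 0 (by decide) (by decide) (by decide) (by decide)
  have k5 := key {0, 2, 3, 4} (0, 1) (3, 5) 0 1 (by decide) (by decide) (by decide) (by decide)
  tauto

/-- **MP_cb4251, Q1, negated form.** There is a loopless split digraph on six vertices which is
2-arc-strong and has minimum degree at least `5`, but has no strong arc decomposition. -/
theorem result : ∃ D : Fin 6 → Fin 6 → Prop, (∀ v, ¬ D v v) ∧ IsSplit D ∧ ArcStrong 2 D ∧
    (∀ v, 5 ≤ degree D v) ∧ ¬ HasStrongArcDecomposition D :=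
  ⟨D, by decide, split, arcStrong, deg, no_decomposition⟩

end Pool.Agent.Results.MP_cb4251_co.SixVertices
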